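import Pool.Agent.Q126.KE.Main

/-!
# Disjoint independent sets of size `p` in sparse graphs of bounded degree (MP_a2dcfe_co)

The graphs on `kp - 1 + s` vertices with at most `(2k-1) s` edges and maximum degree at most
`2k - 2` contain `k` disjoint independent sets of size `p`, except for the unions of `s / (k-1)`
complete graphs on `2k - 1` vertices and isolated vertices.
-/

set_option autoImplicit false

namespace Pool.Agent.Results.MP_a2dcfe_co.EqualityCase

open Finset Q127.HS Q114.KC Pool.Agent.Q126.KE

/-- `G` contains `k` pairwise disjoint independent sets with `p` vertices each; edges between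
different sets are allowed. -/
def ContainsSets {V : Type} (G : SimpleGraph V) (k p : ℕ) : Prop :=
  ∃ F : Fin k → Finset V, (∀ i, (F i).card = p ∧ ∀ u ∈ F i, ∀ v ∈ F i, ¬ G.Adj u v) ∧
    ∀ i j, i ≠ j → Disjoint (F i) (F j)

/-- The disjoint union of `t` complete graphs on `q` vertices each and `N` isolated vertices. -/
def cliquesAndIsolated (t q N : ℕ) : SimpleGraph ((Fin t × Fin q) ⊕ Fin N) where
  Adj
    | Sum.inl a, Sum.inl b => a.1 = b.1 ∧ a.2 ≠ b.2
    | _, _ => False
  symm := ⟨by
    rintro (a | a) (b | b) h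
    · exact ⟨h.1.symm, h.2.symm⟩
    · exact h
    · exact h
    · exact h⟩
  loopless := ⟨by
    rintro (a | a) h
    · exact h.2 rfl
    · exact h⟩

/-- A graph in which every vertex has degree `0` or `r - 1` and in which two neighbours of a vertex
are adjacent. -/
theorem exists_iso {V : Type} [Fintype V] [DecidableEq V] (G : SimpleGraph V) (r t : ℕ)
    (hr : 2 ≤ r) (hdeg : ∀ v, dg G univ v = 0 ∨ dg G univ v + 1 = r)
    (htr : ∀ x y z, G.Adj x y → G.Adj x z → y ≠ z → G.Adj y z)
    (hW : (univ.filter fun v => 1 ≤ dg G univ v).card = r * t) :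
    Nonempty (G ≃g cliquesAndIsolated t r (Fintype.card V - r * t)) := by
  classical
  let P : V → Prop := fun v => 1 ≤ dg G univ v
  let g' : {v // P v} → Finset V := fun v => univ.filter fun w => w = v.1 ∨ G.Adj v.1 w
  have hg' : ∀ v w : {v // P v}, g' v = g' w ↔ v = w ∨ G.Adj v.1 w.1 := by
    intro v w
    constructor
    · intro h
      have h1 : w.1 ∈ g' v := by
        rw [h]
        exact mem_filter.2 ⟨mem_univ _, Or.inl rfl⟩
      rcases (mem_filter.1 h1).2 with h2 | h2
      · exact Or.inl (Subtype.ext h2.symm)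
      · exact Or.inr h2
    · have key : ∀ a b : {v // P v}, G.Adj a.1 b.1 → g' a ⊆ g' b := by
        intro a b hab z hz
        refine mem_filter.2 ⟨mem_univ _, ?_⟩
        rcases (mem_filter.1 hz).2 with h2 | h2
        · right
          rw [h2]
          exact hab.symm
        · by_cases h3 : z = b.1
          · exact Or.inl h3
          · exact Or.inr (htr a.1 b.1 z hab h2 (fun h => h3 h.symm))
      rintro (h | h)
      · rw [h]
      · exact Subset.antisymm (key v w h) (key w v h.symm)
  let Q : Type := Set.range g'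
  let g : {v // P v} → Q := fun v => ⟨g' v, v, rfl⟩
  have hg : ∀ v w, g v = g w ↔ v = w ∨ G.Adj v.1 w.1 := by
    intro v w
    rw [← hg' v w]
    exact Subtype.ext_iff
  have hfib : ∀ c : Q, Fintype.card {v // g v = c} = r := by
    rintro ⟨_, v, rfl⟩
    have h1 : (g' v).card = r := by
      have h2 : g' v = insert v.1 (univ.filter fun w => G.Adj v.1 w) := by
        ext w
        simp [g']
      rw [h2, card_insert_of_notMem (by simp), ← dg_eq]
      have h3 : 1 ≤ dg G univ v.1 := v.2
      rcases hdeg v.1 with h4 | h4 <;> omega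
    rw [← h1, Fintype.card_subtype]
    apply card_bij (fun (w : {v // P v}) _ => w.1)
    · intro w hw
      have h2 := (hg w v).1 (mem_filter.1 hw).2
      refine mem_filter.2 ⟨mem_univ _, ?_⟩
      rcases h2 with h3 | h3
      · exact Or.inl (by rw [h3])
      · exact Or.inr h3.symm
    · intro a _ b _ h
      exact Subtype.ext h
    · intro w hw
      have h2 := (mem_filter.1 hw).2
      have hPw : P w := by
        rcases h2 with h3 | h3
        · rw [h3]; exact v.2
        · exact dg_pos.2 ⟨v.1, mem_univ _, h3.symm⟩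
      refine ⟨⟨w, hPw⟩, mem_filter.2 ⟨mem_univ _, ?_⟩, rfl⟩
      apply (hg ⟨w, hPw⟩ v).2
      rcases h2 with h3 | h3
      · exact Or.inl (Subtype.ext h3)
      · exact Or.inr h3.symm
  have hWc : Fintype.card {v // P v} = r * t := by
    rw [Fintype.card_subtype]; exact hW
  have hQ : Fintype.card Q = t := by
    have h1 : Fintype.card (Σ c : Q, {v // g v = c}) = Fintype.card {v // P v} :=
      Fintype.card_congr (Equiv.sigmaFiberEquiv g)
    rw [Fintype.card_sigma, sum_congr rfl fun c _ => hfib c, sum_const, smul_eq_mul, hWc,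
      mul_comm r t, card_univ] at h1
    exact Nat.eq_of_mul_eq_mul_right (by omega) h1
  have hNc : Fintype.card {v // ¬ P v} = Fintype.card V - r * t := by
    rw [Fintype.card_subtype_compl, hWc]
  let eQ : Q ≃ Fin t := Fintype.equivFinOfCardEq hQ
  let eN : {v // ¬ P v} ≃ Fin (Fintype.card V - r * t) := Fintype.equivFinOfCardEq hNc
  let eW : {v // P v} ≃ Fin t × Fin r :=
    (Equiv.sigmaFiberEquiv g).symm.trans
      ((Equiv.sigmaCongrRight fun c => Fintype.equivFinOfCardEq (hfib c)).trans
        ((Equiv.sigmaEquivProd Q (Fin r)).trans (Equiv.prodCongr eQ (Equiv.refl _))))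
  have heW : ∀ v, (eW v).1 = eQ (g v) := fun v => rfl
  have key : ∀ a b : Fin t × Fin r, G.Adj (eW.symm a).1 (eW.symm b).1 ↔
      a.1 = b.1 ∧ a.2 ≠ b.2 := by
    intro a b
    have h1 : a.1 = b.1 ↔ g (eW.symm a) = g (eW.symm b) := by
      rw [← eQ.injective.eq_iff, ← heW, ← heW, Equiv.apply_symm_apply, Equiv.apply_symm_apply]
    constructor
    · intro h
      have h2 : a.1 = b.1 := h1.2 ((hg _ _).2 (Or.inr h))
      refine ⟨h2, fun h3 => ?_⟩
      have h4 : a = b := Prod.ext h2 h3
      rw [h4] at h
      exact G.irrefl h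
    · rintro ⟨h2, h3⟩
      rcases (hg _ _).1 (h1.1 h2) with h4 | h4
      · exact absurd (by rw [eW.symm.injective h4]) h3
      · exact h4
  have hiso : ∀ v : {v // ¬ P v}, ∀ w, ¬ G.Adj v.1 w := by
    intro v w h
    exact v.2 (dg_pos.2 ⟨w, mem_univ _, h⟩)
  refine ⟨(RelIso.symm ⟨(Equiv.sumCongr eW.symm eN.symm).trans (Equiv.sumCompl P), ?_⟩)⟩
  rintro (a | a) (b | b)
  · exact key a b
  · constructor
    · intro h
      exact hiso (eN.symm b) _ (SimpleGraph.Adj.symm h)
    · intro h
      exact h.elim
  · constructor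
    · intro h
      exact hiso (eN.symm a) _ h
    · intro h
      exact h.elim
  · constructor
    · intro h
      exact hiso (eN.symm a) _ h
    · intro h
      exact h.elim

/-- In the exceptional graphs there are no `k` disjoint independent sets of size `p`. -/
theorem not_contains (k p t q N : ℕ) (hN : k * t + N < k * p) :
    ¬ ContainsSets (cliquesAndIsolated t q N) k p := by
  classical
  rintro ⟨F, h1, h2⟩
  let L : Fin k → Finset (Fin t × Fin q) := fun i => univ.filter fun a => Sum.inl a ∈ F i
  let R : Fin k → Finset (Fin N) := fun i => univ.filter fun a => Sum.inr a ∈ F i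
  have hF : ∀ i, (F i).card = (L i).card + (R i).card := by
    intro i
    rw [← card_disjSum]
    congr 1
    ext x
    rcases x with a | a
    · simp [L]
    · simp [R]
  have hL : ∀ i, (L i).card ≤ t := by
    intro i
    have h3 : (L i).card ≤ (univ : Finset (Fin t)).card := by
      apply card_le_card_of_injOn (fun a => a.1) (fun _ _ => mem_coe.2 (mem_univ _))
      intro a ha b hb hab
      by_contra hne
      have ha' := (mem_filter.1 (mem_coe.1 ha)).2
      have hb' := (mem_filter.1 (mem_coe.1 hb)).2
      exact (h1 i).2 _ ha' _ hb' ⟨hab, fun h => hne (Prod.ext hab h)⟩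
    simpa using h3
  have hR : ∑ i, (R i).card ≤ N := by
    rw [← card_biUnion]
    · have := card_le_univ (univ.biUnion R)
      simpa using this
    · intro i _ j _ hij
      show Disjoint (R i) (R j)
      rw [disjoint_left]
      intro a ha ha'
      exact (disjoint_left.1 (h2 i j hij)) (mem_filter.1 ha).2 (mem_filter.1 ha').2
  have h3 : k * p = ∑ i, ((L i).card + (R i).card) := by
    rw [← sum_congr rfl fun i _ => hF i, sum_congr rfl fun i _ => (h1 i).1]
    simp
  rw [sum_add_distrib] at h3
  have h4 : ∑ i, (L i).card ≤ k * t := by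
    have := sum_le_sum fun i (_ : i ∈ (univ : Finset (Fin k))) => hL i
    simpa using this
  omega

theorem es_eq {V : Type} [Fintype V] [DecidableEq V] (G : SimpleGraph V) [DecidableRel G.Adj] :
    es G univ = 2 * G.edgeFinset.card := by
  rw [← G.sum_degrees_eq_twice_card_edges, es]
  apply sum_congr rfl
  intro v _
  rw [dg_eq, ← G.card_neighborFinset_eq_degree]
  congr 1
  ext w
  simp

/-- **Q1 holds.** Let `p ≥ 1`, `k ≥ 2`, `1 ≤ s ≤ (k-1) p - 1`, and let `G` be a graph on
`k p - 1 + s` vertices with at most `(2k-1) s` edges and maximum degree at most `2k - 2`. Exactly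
one of the following holds: `G` contains `k` disjoint independent sets of size `p`; or `k - 1`
divides `s`, `G` has exactly `(2k-1) s` edges and is isomorphic to the disjoint union of
`s / (k-1)` complete graphs on `2k - 1` vertices and isolated vertices. -/
theorem result (p k s : ℕ) (hp : 1 ≤ p) (hk : 2 ≤ k) (hs : 1 ≤ s) (hs' : s ≤ (k - 1) * p - 1)
    (V : Type) [Fintype V] [DecidableEq V] (G : SimpleGraph V) [DecidableRel G.Adj]
    (hn : Fintype.card V = k * p - 1 + s) (he : G.edgeFinset.card ≤ (2 * k - 1) * s)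
    (hΔ : G.maxDegree ≤ 2 * k - 2) :
    (ContainsSets G k p ∨
      ((k - 1) ∣ s ∧ G.edgeFinset.card = (2 * k - 1) * s ∧
        Nonempty (G ≃g cliquesAndIsolated (s / (k - 1)) (2 * k - 1)
          (Fintype.card V - (2 * k - 1) * (s / (k - 1)))))) ∧
    ¬ (ContainsSets G k p ∧
      ((k - 1) ∣ s ∧ G.edgeFinset.card = (2 * k - 1) * s ∧
        Nonempty (G ≃g cliquesAndIsolated (s / (k - 1)) (2 * k - 1)
          (Fintype.card V - (2 * k - 1) * (s / (k - 1)))))) := by
  obtain ⟨K, rfl⟩ : ∃ K, k = K + 1 := ⟨k - 1, by omega⟩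
  rw [Nat.add_sub_cancel] at hs' ⊢
  have e1 : (K + 1) * p = K * p + p := by ring
  have e2 : (2 * (K + 1) - 1) * p = K * p + K * p + p := by
    have : 2 * (K + 1) - 1 = 2 * K + 1 := by omega
    rw [this]; ring
  constructor
  · have h := main G univ (K + 1) p s hk hp (by rw [card_univ]; omega)
      (by rw [card_univ]; omega)
      (by
        intro v _
        refine le_trans (le_of_eq ?_) ((G.degree_le_maxDegree v).trans hΔ)
        rw [dg_eq, ← G.card_neighborFinset_eq_degree]
        congr 1
        ext w
        simp)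
      (by
        rw [es_eq, mul_assoc]
        exact Nat.mul_le_mul_left _ he) hs
    rcases h with ⟨F, h1, h2⟩ | ⟨h1, t, h2, h3, h4, h5⟩
    · exact Or.inl ⟨F, fun i => ⟨(h1 i).2.1, (h1 i).2.2⟩, h2⟩
    · right
      rw [Nat.add_sub_cancel] at h2
      have h6 : s / K = t := by
        rw [h2]
        exact Nat.mul_div_cancel_left _ (by omega)
      refine ⟨⟨t, h2⟩, ?_, ?_⟩
      · rw [es_eq, mul_assoc] at h1
        omega
      · rw [h6]
        exact exists_iso G _ t (by omega) (fun v => h4 v (mem_univ v))
          (fun x y z => h5 x (mem_univ x) y (mem_univ y) z (mem_univ z)) h3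
  · rintro ⟨⟨F, h1, h2⟩, ⟨t, rfl⟩, -, ⟨e⟩⟩
    have h6 : K * t / K = t := Nat.mul_div_cancel_left _ (by omega)
    rw [h6] at e
    apply not_contains (K + 1) p t (2 * (K + 1) - 1)
      (Fintype.card V - (2 * (K + 1) - 1) * t) ?_ ?_
    · have e3 : 2 * (K + 1) - 1 = 2 * K + 1 := by omega
      have e4 : (2 * K + 1) * t = K * t + K * t + t := by ring
      have e5 : (K + 1) * t = K * t + t := by ring
      have e6 : t < p := by
        by_contra hlt
        have := Nat.mul_le_mul_left K (show p ≤ t by omega)
        omega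
      have e7 : K * t ≤ K * p := Nat.mul_le_mul_left K e6.le
      rw [hn, e3, e4, e5]
      omega
    · refine ⟨fun i => (F i).map e.toEquiv.toEmbedding, fun i => ⟨?_, ?_⟩, ?_⟩
      · rw [card_map, (h1 i).1]
      · intro u hu v hv h
        obtain ⟨u', hu', rfl⟩ := mem_map.1 hu
        obtain ⟨v', hv', rfl⟩ := mem_map.1 hv
        exact (h1 i).2 u' hu' v' hv' (e.map_rel_iff.1 h)
      · intro i j hij
        rw [disjoint_map]
        exact h2 i j hij

end Pool.Agent.Results.MP_a2dcfe_co.EqualityCase
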